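import Pool.Agent.R489.HB.Stm

set_option autoImplicit false

namespace Pool.Agent.R326.HB

open Finset Pool.Agent.R489.HB

variable {W : Type} [DecidableEq W]

theorem mem_edg {Φ : Finset (Finset W)} {e : Finset W} :
    e ∈ edg Φ ↔ ∃ f ∈ Φ, e ⊆ f ∧ e.card = 2 := by
  unfold edg
  simp only [mem_biUnion, mem_powersetCard]

theorem mem_fc {Φ : Finset (Finset W)} {e f : Finset W} : f ∈ fc Φ e ↔ f ∈ Φ ∧ e ⊆ f := by
  unfold fc
  rw [mem_filter]

theorem pair_of {e : Finset W} {u : W} (h2 : e.card = 2) (hu : u ∈ e) :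
    ∃ b, b ≠ u ∧ e = {u, b} := by
  have h1 : (e.erase u).card = 1 := by rw [card_erase_of_mem hu, h2]
  obtain ⟨b, hb⟩ := card_eq_one.1 h1
  have hbe : b ∈ e.erase u := by rw [hb]; exact mem_singleton_self b
  refine ⟨b, (mem_erase.1 hbe).1, ?_⟩
  rw [← insert_erase hu, hb]

theorem star_term {Φ : Finset (Finset W)} (h3 : ∀ f ∈ Φ, f.card = 3) (u : W) {f : Finset W}
    (hf : f ∈ Φ) : Even (((edg Φ).filter (fun e => u ∈ e)).filter (fun e => e ⊆ f)).card := by
  by_cases hu : u ∈ f
  · have h : ((edg Φ).filter (fun e => u ∈ e)).filter (fun e => e ⊆ f) =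
        (f.erase u).image (fun x => ({u, x} : Finset W)) := by
      ext e
      simp only [mem_filter, mem_image, mem_erase]
      constructor
      · rintro ⟨⟨he, hue⟩, hef⟩
        obtain ⟨-, -, -, h2⟩ := mem_edg.1 he
        obtain ⟨b, hb, rfl⟩ := pair_of h2 hue
        exact ⟨b, ⟨hb, hef (by simp)⟩, rfl⟩
      · rintro ⟨x, ⟨hx, hxf⟩, rfl⟩
        have hsub : ({u, x} : Finset W) ⊆ f := by
          intro z hz
          rw [mem_insert, mem_singleton] at hz
          rcases hz with rfl | rfl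
          · exact hu
          · exact hxf
        exact ⟨⟨mem_edg.2 ⟨f, hf, hsub, card_pair hx.symm⟩, by simp⟩, hsub⟩
    rw [h, card_image_of_injOn, card_erase_of_mem hu, h3 f hf]
    · exact ⟨1, rfl⟩
    · intro x hx y hy hxy
      have hx' := (mem_erase.1 (mem_coe.1 hx)).1
      have hxy' : ({u, x} : Finset W) = {u, y} := hxy
      have : x ∈ ({u, y} : Finset W) := by rw [← hxy']; simp
      rw [mem_insert, mem_singleton] at this
      exact this.resolve_left hx'
  · have h : ((edg Φ).filter (fun e => u ∈ e)).filter (fun e => e ⊆ f) = ∅ := by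
      rw [filter_eq_empty_iff]
      intro e he hef
      exact hu (hef (mem_filter.1 he).2)
    rw [h]
    simp

theorem star_even {Φ : Finset (Finset W)} (h3 : ∀ f ∈ Φ, f.card = 3) {Q : Finset (Finset W)}
    (hQ : Q ⊆ Φ) (u : W) : Even (∑ e ∈ (edg Φ).filter (fun e => u ∈ e), (fc Q e).card) := by
  have h : ∑ e ∈ (edg Φ).filter (fun e => u ∈ e), (fc Q e).card =
      ∑ f ∈ Q, (((edg Φ).filter (fun e => u ∈ e)).filter (fun e => e ⊆ f)).card := by
    unfold fc
    simp only [card_filter _ _]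
    rw [sum_comm]
  rw [h]
  exact even_sum _ (fun f hf => star_term h3 u (hQ hf))

theorem two_filter (a b : Finset W) (hab : a ≠ b) (R : Finset (Finset W)) :
    (({a, b} : Finset (Finset W)).filter (fun f => f ∈ R)).card =
      (if a ∈ R then 1 else 0) + (if b ∈ R then 1 else 0) := by
  rw [filter_insert, filter_singleton]
  split_ifs with h1 h2 h2
  · rw [card_pair hab]
  · simp
  · simp
  · simp

theorem fc_sub {Φ R : Finset (Finset W)} (hR : R ⊆ Φ) (e : Finset W) :
    fc R e = (fc Φ e).filter (fun f => f ∈ R) := by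
  ext f
  simp only [mem_fc, mem_filter]
  exact ⟨fun h => ⟨⟨hR h.1, h.2⟩, h.1⟩, fun h => ⟨h.2, h.1.2⟩⟩

theorem apex_even {Φ P Q : Finset (Finset W)} (hP : P ⊆ Φ) (hQ : Q ⊆ Φ) {u v y : W}
    {g h : Finset W} (hP2 : ∀ f ∈ P, ¬ ({u, v} ⊆ f)) (hg : fc Φ {u, y} = {{u, v, y}, g})
    (hh : fc Φ {v, y} = {{u, v, y}, h}) (vg : v ∉ g) (uh : u ∉ h)
    (hQF : ({u, v, y} : Finset W) ∈ Q ↔ g ∈ P)
    (hQP : ∀ f ∈ Φ, ¬ ({u, v} ⊆ f) → (f ∈ Q ↔ f ∈ P))
    (hev : Even ((fc P {u, y}).card + (fc P {v, y}).card)) :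
    Even (fc Q {u, y}).card ∧ Even (fc Q {v, y}).card := by
  have hFg : ({u, v, y} : Finset W) ≠ g := by
    intro h'
    apply vg
    rw [← h']
    simp
  have hFh : ({u, v, y} : Finset W) ≠ h := by
    intro h'
    apply uh
    rw [← h']
    simp
  have hgΦ : g ∈ Φ := (mem_fc.1 (by rw [hg]; simp : g ∈ fc Φ {u, y})).1
  have hhΦ : h ∈ Φ := (mem_fc.1 (by rw [hh]; simp : h ∈ fc Φ {v, y})).1
  have hgQ : g ∈ Q ↔ g ∈ P := hQP g hgΦ (fun hs => vg (hs (by simp)))
  have hhQ : h ∈ Q ↔ h ∈ P := hQP h hhΦ (fun hs => uh (hs (by simp)))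
  have hFP : ({u, v, y} : Finset W) ∉ P := fun hF => hP2 _ hF (by
    intro z hz
    rw [mem_insert, mem_singleton] at hz
    rcases hz with rfl | rfl <;> simp)
  rw [fc_sub hP, fc_sub hP, hg, hh, two_filter _ _ hFg, two_filter _ _ hFh] at hev
  rw [fc_sub hQ, fc_sub hQ, hg, hh, two_filter _ _ hFg, two_filter _ _ hFh]
  simp only [hFP, if_false, zero_add] at hev
  simp only [hQF, hgQ, hhQ]
  by_cases c1 : g ∈ P <;> by_cases c2 : h ∈ P <;> simp [c1, c2] at hev ⊢

theorem CONC (hA : S_APEX) (hC : S_CNT) (hE : S_CONE) : S_CONC := by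
  intro W _ Φ u v hT huv huvE hG h5 Ψ hΨ hev
  obtain ⟨y1, y2, g1, g2, h1, h2, A⟩ := hA W Φ u v hT huv huvE hG h5
  obtain ⟨-, hedg⟩ := hE W Φ u v hT huv huvE hG h5
  obtain ⟨P, hPdef⟩ : ∃ P, P = Φ.filter (fun f => ¬ ({u, v} ⊆ f) ∧ mv u v f ∈ Ψ) := ⟨_, rfl⟩
  have memP : ∀ f, f ∈ P ↔ f ∈ Φ ∧ ¬ ({u, v} ⊆ f) ∧ mv u v f ∈ Ψ := by
    intro f
    rw [hPdef, mem_filter]
  have hPΦ : P ⊆ Φ := fun f hf => ((memP f).1 hf).1
  have hP2 : ∀ f ∈ P, ¬ ({u, v} ⊆ f) := fun f hf => ((memP f).1 hf).2.1
  have hPΨ : P.image (mv u v) = Ψ := by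
    ext x
    rw [mem_image]
    constructor
    · rintro ⟨f, hf, rfl⟩
      exact ((memP f).1 hf).2.2
    · intro hx
      have hx' := hΨ hx
      unfold contr at hx'
      rw [mem_image] at hx'
      obtain ⟨f, hf, rfl⟩ := hx'
      rw [mem_filter] at hf
      exact ⟨f, (memP f).2 ⟨hf.1, hf.2, hx⟩, rfl⟩
  have hinj : Set.InjOn (mv u v) {f : Finset W | f ∈ P} := by
    refine A.inj.mono ?_
    intro f hf
    exact ⟨hPΦ hf, hP2 f hf⟩
  have cnt := fun (e : Finset W) (hv : v ∉ e) (hc : e.card = 2) =>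
    hC W P u v e huv hP2 hinj hv hc
  rw [hPΨ] at cnt
  obtain ⟨Q, hQdef⟩ : ∃ Q, Q = Φ.filter (fun f => f ∈ P ∨ (f = {u, v, y1} ∧ g1 ∈ P) ∨
    (f = {u, v, y2} ∧ g2 ∈ P)) := ⟨_, rfl⟩
  have memQ : ∀ f, f ∈ Q ↔ f ∈ Φ ∧ (f ∈ P ∨ (f = {u, v, y1} ∧ g1 ∈ P) ∨
      (f = {u, v, y2} ∧ g2 ∈ P)) := by
    intro f
    rw [hQdef, mem_filter]
  have hQΦ : Q ⊆ Φ := fun f hf => ((memQ f).1 hf).1
  have hPQ : P ⊆ Q := fun f hf => (memQ f).2 ⟨hPΦ hf, Or.inl hf⟩
  have huvF : ∀ y : W, ({u, v} : Finset W) ⊆ {u, v, y} := by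
    intro y z hz
    rw [mem_insert, mem_singleton] at hz
    rcases hz with rfl | rfl <;> simp
  have hF1Φ : ({u, v, y1} : Finset W) ∈ Φ :=
    (mem_fc.1 (by rw [A.faces]; simp : ({u, v, y1} : Finset W) ∈ fc Φ {u, v})).1
  have hF2Φ : ({u, v, y2} : Finset W) ∈ Φ :=
    (mem_fc.1 (by rw [A.faces]; simp : ({u, v, y2} : Finset W) ∈ fc Φ {u, v})).1
  have hF12 : ({u, v, y1} : Finset W) ≠ {u, v, y2} := by
    intro h
    have h' : y1 ∈ ({u, v, y2} : Finset W) := by rw [← h]; simp
    simp only [mem_insert, mem_singleton] at h'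
    rcases h' with h' | h' | h'
    · exact A.y1u h'
    · exact A.y1v h'
    · exact A.y12 h'
  have hQP : ∀ f ∈ Φ, ¬ ({u, v} ⊆ f) → (f ∈ Q ↔ f ∈ P) := by
    intro f hf hn
    rw [memQ]
    constructor
    · rintro ⟨-, h | ⟨h, -⟩ | ⟨h, -⟩⟩
      · exact h
      · exact absurd (h ▸ huvF y1) hn
      · exact absurd (h ▸ huvF y2) hn
    · intro h
      exact ⟨hf, Or.inl h⟩
  have hQF1 : ({u, v, y1} : Finset W) ∈ Q ↔ g1 ∈ P := by
    rw [memQ]
    constructor
    · rintro ⟨-, h | ⟨-, h⟩ | ⟨h, -⟩⟩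
      · exact absurd (huvF y1) (hP2 _ h)
      · exact h
      · exact absurd h hF12
    · intro h
      exact ⟨hF1Φ, Or.inr (Or.inl ⟨rfl, h⟩)⟩
  have hQF2 : ({u, v, y2} : Finset W) ∈ Q ↔ g2 ∈ P := by
    rw [memQ]
    constructor
    · rintro ⟨-, h | ⟨h, -⟩ | ⟨-, h⟩⟩
      · exact absurd (huvF y2) (hP2 _ h)
      · exact absurd h.symm hF12
      · exact h
    · intro h
      exact ⟨hF2Φ, Or.inr (Or.inr ⟨rfl, h⟩)⟩
  -- the sums at `{u, b}`, `{v, b}`
  have hsum : ∀ b, b ≠ u → b ≠ v → ({u, b} ∈ edg Φ ∨ {v, b} ∈ edg Φ) →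
      Even ((fc P {u, b}).card + (fc P {v, b}).card) := by
    intro b hbu hbv hb
    have hv : v ∉ ({u, b} : Finset W) := by
      simp only [mem_insert, mem_singleton, not_or]
      exact ⟨huv.symm, hbv.symm⟩
    have hmem : ({u, b} : Finset W) ∈ edg (contr u v Φ) := by
      rw [hedg, mem_image]
      rcases hb with hb | hb
      · refine ⟨{u, b}, mem_erase.2 ⟨?_, hb⟩, ?_⟩
        · intro h
          apply hv
          rw [h]
          simp
        · unfold mv
          rw [if_neg hv]
      · refine ⟨{v, b}, mem_erase.2 ⟨?_, hb⟩, ?_⟩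
        · intro h
          have : u ∈ ({v, b} : Finset W) := by rw [h]; simp
          simp only [mem_insert, mem_singleton] at this
          rcases this with h' | h'
          · exact huv h'
          · exact hbu h'.symm
        · unfold mv
          rw [if_pos (by simp)]
          congr 1
          rw [erase_insert]
          rw [mem_singleton]
          exact hbv.symm
    have h1 := (cnt {u, b} hv (card_pair hbu.symm)).2 (by simp)
    have h2 := hev _ hmem
    rw [h1] at h2
    have h3 : insert v (({u, b} : Finset W).erase u) = {v, b} := by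
      rw [erase_insert]
      rw [mem_singleton]
      exact hbu.symm
    rwa [h3] at h2
  have hsame : ∀ e : Finset W, ¬ (e ⊆ {u, v, y1}) → ¬ (e ⊆ {u, v, y2}) → fc Q e = fc P e := by
    intro e he1 he2
    ext f
    rw [mem_fc, mem_fc, memQ]
    constructor
    · rintro ⟨⟨-, h | ⟨h, -⟩ | ⟨h, -⟩⟩, hef⟩
      · exact ⟨h, hef⟩
      · exact absurd (h ▸ hef) he1
      · exact absurd (h ▸ hef) he2
    · rintro ⟨h, hef⟩
      exact ⟨⟨hPΦ h, Or.inl h⟩, hef⟩
  have hPempty : ∀ e : Finset W, e.card = 2 → e ∉ edg Φ → fc P e = ∅ := by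
    intro e h2 he
    rw [eq_empty_iff_forall_notMem]
    intro f hf
    rw [mem_fc] at hf
    exact he (mem_edg.2 ⟨f, hPΦ hf.1, hf.2, h2⟩)
  -- evenness away from `{u, v}`
  have hoff : ∀ e ∈ edg Φ, e ≠ {u, v} → Even (fc Q e).card := by
    intro e he hne
    obtain ⟨-, -, -, h2c⟩ := mem_edg.1 he
    by_cases hu : u ∈ e
    · obtain ⟨b, hbu, rfl⟩ := pair_of h2c hu
      have hbv : b ≠ v := by
        rintro rfl
        exact hne rfl
      by_cases hvb : {v, b} ∈ edg Φ
      · rcases (A.common b hbu hbv).1 ⟨he, hvb⟩ with rfl | rfl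
        · exact (apex_even hPΦ hQΦ hP2 A.g1f A.h1f A.vg1 A.uh1 hQF1 hQP
            (hsum _ hbu hbv (Or.inl he))).1
        · exact (apex_even hPΦ hQΦ hP2 A.g2f A.h2f A.vg2 A.uh2 hQF2 hQP
            (hsum _ hbu hbv (Or.inl he))).1
      · have hby1 : b ≠ y1 := by
          rintro rfl
          exact hvb ((A.common _ hbu hbv).2 (Or.inl rfl)).2
        have hby2 : b ≠ y2 := by
          rintro rfl
          exact hvb ((A.common _ hbu hbv).2 (Or.inr rfl)).2
        rw [hsame]
        · have h3 := hsum b hbu hbv (Or.inl he)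
          rw [hPempty {v, b} (card_pair hbv.symm) hvb, card_empty, add_zero] at h3
          exact h3
        · intro h
          have : b ∈ ({u, v, y1} : Finset W) := h (by simp)
          simp only [mem_insert, mem_singleton] at this
          rcases this with h' | h' | h'
          · exact hbu h'
          · exact hbv h'
          · exact hby1 h'
        · intro h
          have : b ∈ ({u, v, y2} : Finset W) := h (by simp)
          simp only [mem_insert, mem_singleton] at this
          rcases this with h' | h' | h'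
          · exact hbu h'
          · exact hbv h'
          · exact hby2 h'
    · by_cases hv : v ∈ e
      · obtain ⟨b, hbv, rfl⟩ := pair_of h2c hv
        have hbu : b ≠ u := by
          rintro rfl
          exact hu (by simp)
        by_cases hub : {u, b} ∈ edg Φ
        · rcases (A.common b hbu hbv).1 ⟨hub, he⟩ with rfl | rfl
          · exact (apex_even hPΦ hQΦ hP2 A.g1f A.h1f A.vg1 A.uh1 hQF1 hQP
              (hsum _ hbu hbv (Or.inl hub))).2
          · exact (apex_even hPΦ hQΦ hP2 A.g2f A.h2f A.vg2 A.uh2 hQF2 hQP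
              (hsum _ hbu hbv (Or.inl hub))).2
        · have hby1 : b ≠ y1 := by
            rintro rfl
            exact hub ((A.common _ hbu hbv).2 (Or.inl rfl)).1
          have hby2 : b ≠ y2 := by
            rintro rfl
            exact hub ((A.common _ hbu hbv).2 (Or.inr rfl)).1
          rw [hsame]
          · have h3 := hsum b hbu hbv (Or.inr he)
            rw [hPempty {u, b} (card_pair hbu.symm) hub, card_empty, zero_add] at h3
            exact h3
          · intro h
            have : b ∈ ({u, v, y1} : Finset W) := h (by simp)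
            simp only [mem_insert, mem_singleton] at this
            rcases this with h' | h' | h'
            · exact hbu h'
            · exact hbv h'
            · exact hby1 h'
          · intro h
            have : b ∈ ({u, v, y2} : Finset W) := h (by simp)
            simp only [mem_insert, mem_singleton] at this
            rcases this with h' | h' | h'
            · exact hbu h'
            · exact hbv h'
            · exact hby2 h'
      · have hnot : ∀ y : W, ¬ (e ⊆ {u, v, y}) := by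
          intro y h
          have h' : e ⊆ {y} := by
            intro z hz
            have hz' := h hz
            simp only [mem_insert, mem_singleton] at hz'
            rcases hz' with rfl | rfl | rfl
            · exact absurd hz hu
            · exact absurd hz hv
            · exact mem_singleton_self _
          have := card_le_card h'
          rw [h2c, card_singleton] at this
          omega
        rw [hsame e (hnot y1) (hnot y2), ← (cnt e hv h2c).1 hu]
        apply hev
        rw [hedg, mem_image]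
        refine ⟨e, mem_erase.2 ⟨hne, he⟩, ?_⟩
        unfold mv
        rw [if_neg hv]
  have hall : ∀ e ∈ edg Φ, Even (fc Q e).card := by
    intro e he
    by_cases hne : e = {u, v}
    · subst hne
      have h1 := star_even hT.three hQΦ u
      have hmem : ({u, v} : Finset W) ∈ (edg Φ).filter (fun e => u ∈ e) :=
        mem_filter.2 ⟨he, by simp⟩
      rw [← add_sum_erase _ _ hmem, Nat.even_add] at h1
      refine h1.2 (even_sum _ (fun e' he' => ?_))
      rw [mem_erase, mem_filter] at he'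
      exact hoff e' he'.2.1 he'.1
    · exact hoff e he hne
  rcases hT.conn Q hQΦ hall with h | h
  · left
    have hPe : P = ∅ := by
      rw [← subset_empty, ← h]
      exact hPQ
    rw [← hPΨ, hPe, image_empty]
  · right
    rw [← hPΨ]
    unfold contr
    congr 1
    ext f
    rw [mem_filter]
    constructor
    · intro hf
      exact ⟨hPΦ hf, hP2 f hf⟩
    · rintro ⟨hf, hn⟩
      exact (hQP f hf hn).1 (h ▸ hf)

end Pool.Agent.R326.HB
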